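import Pool.Agent.helper65.GD.Spec

set_option autoImplicit false

namespace Pool.Agent.GD

open Finset Metric Filter Topology

theorem APX_geom (N : ℕ) (ω : ℂ) (h1 : ω ^ N = 1) (h2 : ω ≠ 1) : ∑ l : Fin N, ω ^ (l : ℕ) = 0 := by
  rw [Fin.sum_univ_eq_sum_range (fun i => ω ^ i) N, geom_sum_eq h2, h1, sub_self, zero_div]

/-- the terms of the power series of the weighted sum -/
noncomputable def APX_F (μ : ℕ → ℂ) (r : ℝ) (N : ℕ) (ζ : ℂ) (k m : ℕ) : ℂ :=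
  ∑ l : Fin N, (dbl μ m * (r * (starRingEnd ℂ) (ζ ^ (l : ℕ))) ^ m +
    (starRingEnd ℂ) (dbl μ m * (r * (starRingEnd ℂ) (ζ ^ (l : ℕ))) ^ m)) / (2 * N) * (ζ ^ (l : ℕ)) ^ k

theorem APX_conj (ζ : ℂ) (h : ‖ζ‖ = 1) : ζ * (starRingEnd ℂ) ζ = 1 := by
  rw [Complex.mul_conj, Complex.normSq_eq_norm_sq, h]
  simp

theorem APX_F_eq (μ : ℕ → ℂ) (r : ℝ) (N : ℕ) (ζ : ℂ) (hN : 0 < N) (hζ : IsPrimitiveRoot ζ N) (k m : ℕ)
    (hk : k < N) (hm : m < N) (hkm : k + m < N) :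
    APX_F μ r N ζ k m = (if m = k then dbl μ m * r ^ m / 2 else 0) +
      (if k + m = 0 then (starRingEnd ℂ) (dbl μ m) * r ^ m / 2 else 0) := by
  have hn : ‖ζ‖ = 1 := hζ.norm'_eq_one hN.ne'
  have hc := APX_conj ζ hn
  have hN0 : (N : ℂ) ≠ 0 := Nat.cast_ne_zero.2 hN.ne'
  have e1 : APX_F μ r N ζ k m = dbl μ m * r ^ m / (2 * N) * (∑ l : Fin N, (ζ ^ k * (starRingEnd ℂ) ζ ^ m) ^ (l : ℕ)) +
      (starRingEnd ℂ) (dbl μ m) * r ^ m / (2 * N) * (∑ l : Fin N, (ζ ^ (k + m)) ^ (l : ℕ)) := by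
    rw [Finset.mul_sum, Finset.mul_sum, ← Finset.sum_add_distrib]
    unfold APX_F
    apply Finset.sum_congr rfl
    intro l _
    simp only [map_mul, map_pow, Complex.conj_ofReal, Complex.conj_conj]
    rw [mul_pow, mul_pow, mul_pow, ← pow_mul, ← pow_mul, ← pow_mul, ← pow_mul, ← pow_mul, ← pow_mul]
    rw [show (k + m) * (l : ℕ) = (l : ℕ) * k + (l : ℕ) * m by ring, pow_add,
      show k * (l : ℕ) = (l : ℕ) * k by ring, show m * (l : ℕ) = (l : ℕ) * m by ring]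
    ring
  have e2 : ∑ l : Fin N, (ζ ^ k * (starRingEnd ℂ) ζ ^ m) ^ (l : ℕ) = if m = k then (N : ℂ) else 0 := by
    by_cases h : m = k
    · rw [if_pos h, h, ← mul_pow, hc, one_pow]
      simp
    · rw [if_neg h]
      apply APX_geom
      · rw [mul_pow, ← pow_mul, ← pow_mul, mul_comm k N, mul_comm m N, pow_mul, pow_mul, hζ.pow_eq_one,
          ← map_pow, hζ.pow_eq_one]
        simp
      · intro h3
        apply h
        have h4 : ζ ^ k = ζ ^ m := by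
          calc ζ ^ k = ζ ^ k * (ζ * (starRingEnd ℂ) ζ) ^ m := by rw [hc, one_pow, mul_one]
            _ = (ζ ^ k * (starRingEnd ℂ) ζ ^ m) * ζ ^ m := by rw [mul_pow]; ring
            _ = ζ ^ m := by rw [h3, one_mul]
        exact (hζ.pow_inj hk hm h4).symm
  have e3 : ∑ l : Fin N, (ζ ^ (k + m)) ^ (l : ℕ) = if k + m = 0 then (N : ℂ) else 0 := by
    by_cases h : k + m = 0
    · rw [if_pos h, h]
      simp
    · rw [if_neg h]
      apply APX_geom
      · rw [← pow_mul, mul_comm, pow_mul, hζ.pow_eq_one, one_pow]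
      · exact hζ.pow_ne_one_of_pos_of_lt h hkm
  rw [e1, e2, e3]
  congr 1
  · split_ifs
    · field_simp
    · simp
  · split_ifs
    · field_simp
    · simp

theorem APX_F_norm (μ : ℕ → ℂ) (r : ℝ) (hr : 0 ≤ r) (N : ℕ) (ζ : ℂ) (hN : 0 < N) (hn : ‖ζ‖ = 1) (k m : ℕ) :
    ‖APX_F μ r N ζ k m‖ ≤ ‖dbl μ m‖ * r ^ m := by
  unfold APX_F
  have hN0 : (0 : ℝ) < N := Nat.cast_pos.2 hN
  have h1 : ∀ l : Fin N, ‖(dbl μ m * (r * (starRingEnd ℂ) (ζ ^ (l : ℕ))) ^ m +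
      (starRingEnd ℂ) (dbl μ m * (r * (starRingEnd ℂ) (ζ ^ (l : ℕ))) ^ m)) / (2 * N) * (ζ ^ (l : ℕ)) ^ k‖ ≤
      ‖dbl μ m‖ * r ^ m / N := by
    intro l
    have h2 : ‖dbl μ m * (r * (starRingEnd ℂ) (ζ ^ (l : ℕ))) ^ m‖ = ‖dbl μ m‖ * r ^ m := by
      rw [norm_mul, norm_pow, norm_mul, Complex.norm_conj, norm_pow, hn, one_pow, mul_one, Complex.norm_real,
        Real.norm_of_nonneg hr]
    rw [norm_mul, norm_pow, norm_pow, hn, one_pow, one_pow, mul_one, norm_div]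
    have h3 : ‖(2 * N : ℂ)‖ = 2 * N := by
      rw [norm_mul, Complex.norm_natCast]
      norm_num
    rw [h3, div_le_div_iff₀ (by positivity) hN0]
    have h4 := norm_add_le (dbl μ m * (r * (starRingEnd ℂ) (ζ ^ (l : ℕ))) ^ m)
      ((starRingEnd ℂ) (dbl μ m * (r * (starRingEnd ℂ) (ζ ^ (l : ℕ))) ^ m))
    rw [Complex.norm_conj, h2] at h4
    nlinarith
  calc ‖_‖ ≤ ∑ l : Fin N, ‖dbl μ m‖ * r ^ m / N := norm_sum_le_of_le _ fun l _ => h1 l
    _ = ‖dbl μ m‖ * r ^ m := by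
      rw [Finset.sum_const, Finset.card_univ, Fintype.card_fin, nsmul_eq_mul]
      field_simp

theorem APX_sum (P : ℂ → ℂ) (μ : ℕ → ℂ) (h0 : μ 0 = 1) (hP : Ser (dbl μ) P) (r : ℝ) (hr0 : 0 < r) (hr1 : r < 1)
    (M n : ℕ) (hMn : M < n) (ζ : ℂ) (hζ : IsPrimitiveRoot ζ (n + M)) (k : ℕ) (hk : k ≤ M) :
    ‖∑ l : Fin (n + M), ((((P (r * (starRingEnd ℂ) (ζ ^ (l : ℕ)))).re / ((n + M : ℕ) : ℝ) : ℝ)) : ℂ) *
      (ζ ^ (l : ℕ)) ^ k - (r : ℂ) ^ k * μ k‖ ≤ ∑' m, ‖dbl μ (m + n)‖ * r ^ (m + n) := by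
  have hN : 0 < n + M := by omega
  have hn : ‖ζ‖ = 1 := hζ.norm'_eq_one hN.ne'
  have hsum : Summable fun m => ‖dbl μ m‖ * r ^ m := by
    have h1 : (r : ℂ) ∈ ball (0 : ℂ) 1 := by
      rw [mem_ball_zero_iff, Complex.norm_real, Real.norm_of_nonneg hr0.le]
      exact hr1
    have h2 := (hP r h1).summable.norm
    refine h2.congr fun m => ?_
    rw [norm_mul, norm_pow, Complex.norm_real, Real.norm_of_nonneg hr0.le]
  have hF : HasSum (fun m => APX_F μ r (n + M) ζ k m)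
      (∑ l : Fin (n + M), (P (r * (starRingEnd ℂ) (ζ ^ (l : ℕ))) +
        (starRingEnd ℂ) (P (r * (starRingEnd ℂ) (ζ ^ (l : ℕ))))) / (2 * (n + M : ℕ)) * (ζ ^ (l : ℕ)) ^ k) := by
    unfold APX_F
    apply hasSum_sum
    intro l _
    have hz : (r : ℂ) * (starRingEnd ℂ) (ζ ^ (l : ℕ)) ∈ ball (0 : ℂ) 1 := by
      rw [mem_ball_zero_iff, norm_mul, Complex.norm_conj, norm_pow, hn, one_pow, mul_one, Complex.norm_real,
        Real.norm_of_nonneg hr0.le]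
      exact hr1
    have h1 := hP _ hz
    have h2 : HasSum (fun m => (starRingEnd ℂ) (dbl μ m * ((r : ℂ) * (starRingEnd ℂ) (ζ ^ (l : ℕ))) ^ m))
        ((starRingEnd ℂ) (P (r * (starRingEnd ℂ) (ζ ^ (l : ℕ))))) := Complex.hasSum_conj'.2 (by
          simpa only [Complex.conj_conj] using h1)
    exact ((h1.add h2).div_const _).mul_right _
  have hS : (∑ l : Fin (n + M), ((((P (r * (starRingEnd ℂ) (ζ ^ (l : ℕ)))).re / ((n + M : ℕ) : ℝ) : ℝ)) : ℂ) *
      (ζ ^ (l : ℕ)) ^ k) = ∑ l : Fin (n + M), (P (r * (starRingEnd ℂ) (ζ ^ (l : ℕ))) +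
        (starRingEnd ℂ) (P (r * (starRingEnd ℂ) (ζ ^ (l : ℕ))))) / (2 * (n + M : ℕ)) * (ζ ^ (l : ℕ)) ^ k := by
    apply Finset.sum_congr rfl
    intro l _
    rw [Complex.add_conj]
    push_cast
    rw [mul_div_mul_left _ _ two_ne_zero]
  have hpart : ∑ m ∈ range n, APX_F μ r (n + M) ζ k m = (r : ℂ) ^ k * μ k := by
    rw [Finset.sum_congr rfl fun m hm => APX_F_eq μ r (n + M) ζ hN hζ k m (by omega)
      (by have := Finset.mem_range.1 hm; omega) (by have := Finset.mem_range.1 hm; omega)]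
    rw [Finset.sum_add_distrib, Finset.sum_ite_eq' (range n) k, if_pos (Finset.mem_range.2 (by omega))]
    by_cases hk0 : k = 0
    · subst hk0
      have : ∀ m, (if 0 + m = 0 then (starRingEnd ℂ) (dbl μ m) * (r : ℂ) ^ m / 2 else 0) =
          if m = 0 then (starRingEnd ℂ) (dbl μ m) * (r : ℂ) ^ m / 2 else 0 := by
        intro m
        rw [zero_add]
      rw [Finset.sum_congr rfl fun m _ => this m, Finset.sum_ite_eq' (range n) 0,
        if_pos (Finset.mem_range.2 (by omega))]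
      simp only [dbl, if_true, pow_zero, h0, map_one]
      norm_num
    · rw [Finset.sum_eq_zero (fun m _ => if_neg (by omega)), add_zero]
      simp only [dbl, if_neg hk0]
      ring
  rw [hS, ← hpart]
  have h1 := (hasSum_nat_add_iff' n).2 hF
  have h2 : Summable fun m => ‖dbl μ (m + n)‖ * r ^ (m + n) := (summable_nat_add_iff n).2 hsum
  exact h1.norm_le_of_bounded h2.hasSum fun m => APX_F_norm μ r hr0.le (n + M) ζ hN hn k (m + n)

theorem APX : APX_stmt := by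
  intro P μ h0 hP hre M ε hε
  set δ : ℝ := min (ε / 3) (1 / 2) with hδ
  have hδ0 : 0 < δ := by positivity
  have hδ1 : δ ≤ 1 / 2 := min_le_right _ _
  have hδε : δ ≤ ε / 3 := min_le_left _ _
  -- the radius
  have hr : ∃ r : ℝ, 0 < r ∧ r < 1 ∧ ∀ k ≤ M, ‖(r : ℂ) ^ k * μ k - μ k‖ < δ := by
    have h1 : ∀ k ∈ range (M + 1), ∀ᶠ r : ℝ in 𝓝[<] 1, ‖(r : ℂ) ^ k * μ k - μ k‖ < δ := by
      intro k _
      have h2 : Tendsto (fun r : ℝ => ‖(r : ℂ) ^ k * μ k - μ k‖) (𝓝 1) (𝓝 ‖((1 : ℝ) : ℂ) ^ k * μ k - μ k‖) := by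
        apply Continuous.tendsto
        fun_prop
      have h3 : ‖((1 : ℝ) : ℂ) ^ k * μ k - μ k‖ = 0 := by simp
      rw [h3] at h2
      exact (h2.eventually (gt_mem_nhds hδ0)).filter_mono nhdsWithin_le_nhds
    have h4 := (Filter.eventually_all_finset (range (M + 1))).2 h1
    have h5 : ∀ᶠ r : ℝ in 𝓝[<] 1, 0 < r ∧ r < 1 := by
      have h6 : ∀ᶠ r : ℝ in 𝓝[<] 1, 0 < r := (lt_mem_nhds one_pos).filter_mono nhdsWithin_le_nhds
      filter_upwards [h6, self_mem_nhdsWithin] with r a b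
      exact ⟨a, b⟩
    obtain ⟨r, hr1, hr2⟩ := (h4.and h5).exists
    exact ⟨r, hr2.1, hr2.2, fun k hk => hr1 k (Finset.mem_range.2 (by omega))⟩
  obtain ⟨r, hr0, hr1, hrk⟩ := hr
  have hsum : Summable fun m => ‖dbl μ m‖ * r ^ m := by
    have h1 : (r : ℂ) ∈ ball (0 : ℂ) 1 := by
      rw [mem_ball_zero_iff, Complex.norm_real, Real.norm_of_nonneg hr0.le]
      exact hr1
    have h2 := (hP r h1).summable.norm
    refine h2.congr fun m => ?_
    rw [norm_mul, norm_pow, Complex.norm_real, Real.norm_of_nonneg hr0.le]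
  have htail : ∃ n : ℕ, M < n ∧ ∑' m, ‖dbl μ (m + n)‖ * r ^ (m + n) < δ := by
    have h1 := tendsto_sum_nat_add fun m => ‖dbl μ m‖ * r ^ m
    obtain ⟨n, hn1, hn2⟩ := ((h1.eventually (gt_mem_nhds hδ0)).and (eventually_gt_atTop M)).exists
    exact ⟨n, hn2, hn1⟩
  obtain ⟨n, hMn, hT⟩ := htail
  have hN : n + M ≠ 0 := by omega
  set ζ : ℂ := Complex.exp (2 * Real.pi * Complex.I / ((n + M : ℕ) : ℂ)) with hζd
  have hζ : IsPrimitiveRoot ζ (n + M) := Complex.isPrimitiveRoot_exp (n + M) hN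
  have hn : ‖ζ‖ = 1 := hζ.norm'_eq_one hN
  set v : Fin (n + M) → ℝ := fun l => (P (r * (starRingEnd ℂ) (ζ ^ (l : ℕ)))).re / ((n + M : ℕ) : ℝ) with hv
  have hv0 : ∀ l, 0 ≤ v l := by
    intro l
    have hz : (r : ℂ) * (starRingEnd ℂ) (ζ ^ (l : ℕ)) ∈ ball (0 : ℂ) 1 := by
      rw [mem_ball_zero_iff, norm_mul, Complex.norm_conj, norm_pow, hn, one_pow, mul_one, Complex.norm_real,
        Real.norm_of_nonneg hr0.le]
      exact hr1
    exact div_nonneg (hre _ hz) (Nat.cast_nonneg _)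
  have hS : ∀ k ≤ M, ‖∑ l : Fin (n + M), (v l : ℂ) * (ζ ^ (l : ℕ)) ^ k - (r : ℂ) ^ k * μ k‖ < δ := fun k hk =>
    (APX_sum P μ h0 hP r hr0 hr1 M n hMn ζ hζ k hk).trans_lt hT
  set W : ℝ := ∑ l, v l with hW
  have hW1 : |W - 1| < δ := by
    have h1 := hS 0 (Nat.zero_le _)
    simp only [pow_zero, mul_one, h0] at h1
    rw [← Complex.ofReal_sum, ← Complex.ofReal_one, ← Complex.ofReal_sub, Complex.norm_real, Real.norm_eq_abs] at h1
    exact h1
  have hW0 : 0 < W := by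
    have := (abs_lt.1 hW1).1
    linarith
  refine ⟨n + M, fun l => v l / W, fun l => ζ ^ (l : ℕ), ⟨fun l => div_nonneg (hv0 l) hW0.le, ?_, fun l => ?_⟩, ?_⟩
  · rw [← Finset.sum_div, ← hW, div_self hW0.ne']
  · rw [norm_pow, hn, one_pow]
  · intro k hk
    set S : ℂ := ∑ l : Fin (n + M), (v l : ℂ) * (ζ ^ (l : ℕ)) ^ k with hSd
    have h1 : mom (fun l => v l / W) (fun l : Fin (n + M) => ζ ^ (l : ℕ)) k = S / W := by
      unfold mom
      rw [hSd, Finset.sum_div]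
      apply Finset.sum_congr rfl
      intro l _
      push_cast
      ring
    have hSn : ‖S‖ ≤ W := by
      rw [hSd, hW]
      refine norm_sum_le_of_le _ fun l _ => ?_
      rw [norm_mul, norm_pow, norm_pow, hn, one_pow, one_pow, mul_one, Complex.norm_real, Real.norm_of_nonneg (hv0 l)]
    have h2 : ‖S / W - S‖ ≤ |W - 1| := by
      have h3 : S / W - S = S * ((1 - W : ℝ) / W : ℝ) := by
        have hWc : (W : ℂ) ≠ 0 := Complex.ofReal_ne_zero.2 hW0.ne'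
        push_cast
        field_simp
      rw [h3, norm_mul, Complex.norm_real, Real.norm_eq_abs, abs_div, abs_of_pos hW0, abs_sub_comm]
      calc ‖S‖ * (|W - 1| / W) ≤ W * (|W - 1| / W) := mul_le_mul_of_nonneg_right hSn (by positivity)
        _ = |W - 1| := by field_simp
    rw [h1]
    calc ‖S / W - μ k‖ = ‖(S / W - S) + (S - (r : ℂ) ^ k * μ k) + ((r : ℂ) ^ k * μ k - μ k)‖ := by
          congr 1
          ring
      _ ≤ ‖S / W - S‖ + ‖S - (r : ℂ) ^ k * μ k‖ + ‖(r : ℂ) ^ k * μ k - μ k‖ := norm_add₃_le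
      _ < δ + δ + δ := by
          have := hS k hk
          have := hrk k hk
          linarith
      _ ≤ ε := by linarith

end Pool.Agent.GD
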