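import Pool.Agent.helper65.GD.SpecB

set_option autoImplicit false

namespace Pool.Agent.GD

open Finset Metric Filter Topology

theorem ARG_log {h : ℂ → ℂ} {r R : ℝ} {M : ℕ} {a : Fin M → ℂ} {U : ℂ → ℂ} (hF : Fac h r R M a U) (z : ℂ)
    (hz : ‖z‖ < R) (hne : ∀ l, z - a l ≠ 0) :
    DifferentiableAt ℂ h z ∧ h z ≠ 0 ∧ deriv h z / h z = ∑ l, (z - a l)⁻¹ + deriv U z / U z := by
  obtain ⟨hr, hrR, ha, hU, hU0, hh⟩ := hF
  have hzb : z ∈ ball (0 : ℂ) R := by simpa using hz
  have hev : h =ᶠ[𝓝 z] fun w => (∏ l, (w - a l)) * U w := by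
    filter_upwards [isOpen_ball.mem_nhds hzb] with w hw
    exact hh w hw
  have hUd : DifferentiableAt ℂ U z := hU.differentiableAt (isOpen_ball.mem_nhds hzb)
  have hpd : DifferentiableAt ℂ (fun w => ∏ l, (w - a l)) z := by
    apply DifferentiableAt.fun_finsetProd
    intro l _
    fun_prop
  have hp0 : ∏ l, (z - a l) ≠ 0 := Finset.prod_ne_zero_iff.2 fun l _ => hne l
  refine ⟨(hpd.mul hUd).congr_of_eventuallyEq hev, ?_, ?_⟩
  · rw [hh z hzb]
    exact mul_ne_zero hp0 (hU0 z hzb)
  · have d : deriv (fun w => (∏ l, (w - a l)) * U w) z =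
        deriv (fun w => ∏ l, (w - a l)) z * U z + (∏ l, (z - a l)) * deriv U z :=
      (hpd.hasDerivAt.mul hUd.hasDerivAt).deriv
    have e : deriv (fun w => ∏ l, (w - a l)) z / (∏ l, (z - a l)) = ∑ l, (z - a l)⁻¹ := by
      have h1 := logDeriv_prod (s := univ) (f := fun (l : Fin M) (w : ℂ) => w - a l) (x := z)
        (fun l _ => hne l) (fun l _ => by fun_prop)
      rw [logDeriv_apply] at h1
      rw [h1]
      apply Finset.sum_congr rfl
      intro l _
      rw [logDeriv_apply]
      have : deriv (fun w : ℂ => w - a l) z = 1 := ((hasDerivAt_id z).sub_const (a l)).deriv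
      rw [this, one_div]
    rw [hev.deriv_eq, d, hh z hzb, ← e]
    have := hU0 z hzb
    field_simp

theorem ARG : ARG_stmt := by
  intro h r R M a U hF
  have hF' := hF
  obtain ⟨hr, hrR, ha, hU, hU0, hh⟩ := hF'
  have hnorm : ∀ θ : ℝ, ‖circleMap 0 r θ‖ = r := by
    intro θ
    rw [norm_circleMap_zero, abs_of_pos hr]
  have hne : ∀ z : ℂ, ‖z‖ = r → ∀ l, z - a l ≠ 0 := by
    intro z hz l h1
    rw [sub_eq_zero.1 h1] at hz
    exact absurd hz (ha l).ne
  have hlog : ∀ z : ℂ, ‖z‖ = r → DifferentiableAt ℂ h z ∧ h z ≠ 0 ∧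
      deriv h z / h z = ∑ l, (z - a l)⁻¹ + deriv U z / U z := fun z hz =>
    ARG_log hF z (by rw [hz]; exact hrR) (hne z hz)
  set q : ℝ → ℂ := fun θ => circleMap 0 r θ * deriv h (circleMap 0 r θ) / h (circleMap 0 r θ) * Complex.I with hq
  have hUn : DifferentiableOn ℂ (fun z => deriv U z / U z) (ball 0 R) := (hU.deriv isOpen_ball).div hU hU0
  have hq' : q = fun θ => circleMap 0 r θ *
      (∑ l, (circleMap 0 r θ - a l)⁻¹ + deriv U (circleMap 0 r θ) / U (circleMap 0 r θ)) * Complex.I := by
    funext θ
    rw [hq]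
    simp only
    rw [mul_div_assoc, (hlog _ (hnorm θ)).2.2]
  have hqc : Continuous q := by
    rw [hq']
    apply Continuous.mul _ continuous_const
    apply (continuous_circleMap 0 r).mul
    apply Continuous.add
    · apply continuous_finsetSum
      intro l _
      exact ((continuous_circleMap 0 r).sub continuous_const).inv₀ fun θ => hne _ (hnorm θ) l
    · exact hUn.continuousOn.comp_continuous (continuous_circleMap 0 r) fun θ => by
        rw [mem_ball_zero_iff, hnorm]; exact hrR
  set L : ℝ → ℂ := fun θ => ∫ t in (0 : ℝ)..θ, q t with hL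
  have hLd : ∀ θ, HasDerivAt L (q θ) θ := fun θ => (hqc.integral_hasStrictDerivAt 0 θ).hasDerivAt
  have hhd : ∀ θ : ℝ, HasDerivAt (fun θ : ℝ => h (circleMap 0 r θ))
      (deriv h (circleMap 0 r θ) * (circleMap 0 r θ * Complex.I)) θ := fun θ =>
    (hlog _ (hnorm θ)).1.hasDerivAt.comp θ (hasDerivAt_circleMap 0 r θ)
  have hconst : ∀ θ : ℝ, h (circleMap 0 r θ) = h (circleMap 0 r 0) * Complex.exp (L θ) := by
    have hd : ∀ θ : ℝ, HasDerivAt (fun θ : ℝ => h (circleMap 0 r θ) * Complex.exp (-L θ)) 0 θ := by
      intro θ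
      have h1 := (hhd θ).mul ((hLd θ).neg.cexp)
      have h2 : deriv h (circleMap 0 r θ) * (circleMap 0 r θ * Complex.I) * Complex.exp (-L θ) +
          h (circleMap 0 r θ) * (Complex.exp (-L θ) * -q θ) = 0 := by
        rw [hq]
        simp only
        have := (hlog _ (hnorm θ)).2.1
        field_simp
        ring
      have h3 : HasDerivAt (fun θ : ℝ => h (circleMap 0 r θ) * Complex.exp (-L θ))
        (deriv h (circleMap 0 r θ) * (circleMap 0 r θ * Complex.I) * Complex.exp (-L θ) +
          h (circleMap 0 r θ) * (Complex.exp (-L θ) * -q θ)) θ := h1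
      rw [h2] at h3
      exact h3
    intro θ
    have h1 := is_const_of_deriv_eq_zero (fun θ => (hd θ).differentiableAt) (fun θ => (hd θ).deriv) θ 0
    have h2 : L 0 = 0 := by rw [hL]; simp
    rw [h2, neg_zero, Complex.exp_zero, mul_one] at h1
    rw [← h1, mul_assoc, ← Complex.exp_add, neg_add_cancel, Complex.exp_zero, mul_one]
  refine ⟨fun θ => (h (circleMap 0 r 0)).arg + (L θ).im, ?_, ?_, ?_⟩
  · intro θ
    have h1 : HasDerivAt (fun θ => (L θ).im) (q θ).im θ := by
      have := Complex.imCLM.hasFDerivAt.comp_hasDerivAt θ (hLd θ)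
      exact this
    have h2 : (q θ).im = (circleMap 0 r θ * deriv h (circleMap 0 r θ) / h (circleMap 0 r θ)).re := by
      rw [hq]
      simp only
      rw [Complex.mul_I_im]
    rw [← h2]
    exact h1.const_add _
  · intro θ
    rw [hconst θ, norm_mul, Complex.norm_exp]
    have h1 := Complex.norm_mul_exp_arg_mul_I (h (circleMap 0 r 0))
    have h2 : L θ = ((L θ).re : ℂ) + (L θ).im * Complex.I := (Complex.re_add_im _).symm
    conv_lhs => rw [← h1, h2, Complex.exp_add]
    push_cast
    rw [mul_add, Complex.exp_add, mul_comm Complex.I, mul_comm Complex.I]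
    ring
  · have h1 : L (2 * Real.pi) = 2 * Real.pi * Complex.I * M := by
      have h2 : L (2 * Real.pi) = ∮ z in C(0, r), deriv h z / h z := by
        rw [hL, circleIntegral]
        simp only
        apply intervalIntegral.integral_congr
        intro θ _
        simp only [hq, deriv_circleMap, smul_eq_mul]
        ring
      have h3 : (∮ z in C(0, r), deriv h z / h z) = ∮ z in C(0, r), (∑ l, (z - a l)⁻¹ + deriv U z / U z) := by
        apply circleIntegral.integral_congr hr.le
        intro z hz
        have : ‖z‖ = r := by simpa using hz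
        exact (hlog z this).2.2
      have hUcl : ContinuousOn (fun z => deriv U z / U z) (closedBall 0 r) :=
        hUn.continuousOn.mono (closedBall_subset_ball hrR)
      have hUci : CircleIntegrable (fun z => deriv U z / U z) 0 r :=
        (hUcl.mono sphere_subset_closedBall).circleIntegrable hr.le
      have hlci : ∀ l, CircleIntegrable (fun z => (z - a l)⁻¹) 0 r := by
        intro l
        apply ContinuousOn.circleIntegrable hr.le
        apply ContinuousOn.inv₀ (by fun_prop)
        intro z hz
        exact hne z (by simpa using hz) l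
      have hsci : CircleIntegrable (fun z => ∑ l, (z - a l)⁻¹) 0 r := by
        apply ContinuousOn.circleIntegrable hr.le
        apply continuousOn_finsetSum
        intro l _
        apply ContinuousOn.inv₀ (by fun_prop)
        intro z hz
        exact hne z (by simpa using hz) l
      have h4 : (∮ z in C(0, r), deriv U z / U z) = 0 := by
        apply Complex.circleIntegral_eq_zero_of_differentiable_on_off_countable hr.le Set.countable_empty hUcl
        intro z hz
        exact hUn.differentiableAt (isOpen_ball.mem_nhds (ball_subset_ball hrR.le hz.1))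
      rw [h2, h3, circleIntegral.integral_add hsci hUci, h4, add_zero, circleIntegral.integral_fun_sum
        (fun l _ => hlci l)]
      rw [Finset.sum_congr rfl fun l _ => circleIntegral.integral_sub_inv_of_mem_ball (by simpa using ha l)]
      rw [Finset.sum_const, Finset.card_univ, Fintype.card_fin, nsmul_eq_mul]
      ring
    have h2 : L 0 = 0 := by rw [hL]; simp
    simp only [h1, h2]
    have h3 : (2 * (Real.pi : ℂ) * Complex.I * M).im = 2 * Real.pi * M := by
      simp
    rw [h3]
    simp

end Pool.Agent.GD
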