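import Pool.Agent.helper65.GD.SpecB

set_option autoImplicit false

namespace Pool.Agent.GD

open Finset Metric Filter Topology

theorem ATM_im (h : ℂ) (t φ : ℝ) (hh : h = ‖h‖ * Complex.exp (Complex.I * t)) :
    (Complex.exp (-(Complex.I * φ)) * h).im = ‖h‖ * Real.sin (t - φ) := by
  have h1 : Complex.exp (-(Complex.I * φ)) * h = (‖h‖ : ℂ) * Complex.exp (((t - φ : ℝ) : ℂ) * Complex.I) := by
    conv_lhs => rw [hh]
    have h2 : (((t - φ : ℝ) : ℂ) * Complex.I) = -(Complex.I * φ) + Complex.I * t := by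
      push_cast
      ring
    rw [h2, Complex.exp_add]
    ring
  rw [h1, Complex.im_ofReal_mul, Complex.exp_ofReal_mul_I_im]

theorem ATM (hRAD : RAD_stmt) (hPFA : PFA_stmt) (hARG : ARG_stmt) (hCNT : CNT_stmt) (hCNU : CNU_stmt) :
    ATM_stmt := by
  intro f p hf w
  by_contra hlt
  have h1 : ((p + 1 : ℕ) : ℕ∞) ≤ {z ∈ ball (0 : ℂ) 1 | f z = w}.encard := by
    push_cast
    exact Order.add_one_le_of_lt (not_le.1 hlt)
  obtain ⟨t', ht', htc⟩ := Set.exists_subset_encard_eq h1
  have hfin : t'.Finite := Set.finite_of_encard_eq_coe htc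
  set t : Finset ℂ := hfin.toFinset with ht
  have htcard : t.card = p + 1 := by
    have := hfin.encard_eq_coe_toFinset_card
    rw [htc] at this
    exact_mod_cast this.symm
  have htm : ∀ z ∈ t, ‖z‖ < 1 ∧ f z = w := by
    intro z hz
    have h2 := ht' (hfin.mem_toFinset.1 hz)
    exact ⟨by simpa using h2.1, h2.2⟩
  obtain ⟨r, a, g, hr1, hFac, htr, hfw, hre⟩ := hRAD f p w t hf fun z hz => (htm z hz).1
  have hr0 : 0 < r := hFac.1
  obtain ⟨R, M, b, U, hR1, hFh⟩ := hPFA (fun z => f z - w) r hr0 hr1 (hf.analytic.sub_const w)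
    fun z hz => sub_ne_zero.2 (hfw z hz)
  have hM : p + 1 ≤ M := by
    have hsub : t ⊆ univ.image b := by
      intro z hz
      have hzR : z ∈ ball (0 : ℂ) R := by
        rw [mem_ball_zero_iff]
        exact (htr z hz).trans hFh.2.1
      have h2 : f z - w = _ := hFh.2.2.2.2.2 z hzR
      rw [(htm z hz).2, sub_self] at h2
      rcases mul_eq_zero.1 h2.symm with h3 | h3
      · obtain ⟨l, _, hl⟩ := Finset.prod_eq_zero_iff.1 h3
        exact Finset.mem_image.2 ⟨l, mem_univ _, (sub_eq_zero.1 hl).symm⟩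
      · exact absurd h3 (hFh.2.2.2.2.1 z hzR)
    have h2 := Finset.card_le_card hsub
    have h3 := Finset.card_image_le (s := (univ : Finset (Fin M))) (f := b)
    rw [Finset.card_univ, Fintype.card_fin] at h3
    omega
  obtain ⟨Θf, hfd, hfe, hf2⟩ := hARG f r 1 p a g hFac
  obtain ⟨Θh, hhd, hhe, hh2⟩ := hARG (fun z => f z - w) r R M b U hFh
  have hnorm : ∀ θ : ℝ, ‖circleMap 0 r θ‖ = r := by
    intro θ
    rw [norm_circleMap_zero, abs_of_pos hr0]
  have hmono : StrictMono Θf := by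
    apply strictMono_of_deriv_pos
    intro θ
    rw [(hfd θ).deriv]
    exact hre _ (hnorm θ)
  have hcont : Continuous Θh := continuous_iff_continuousAt.2 fun θ => (hhd θ).continuousAt
  obtain ⟨s, hs1, hs2⟩ := hCNT Θh w.arg M hcont hh2
  have hwim : (Complex.exp (-(Complex.I * w.arg)) * w).im = 0 := by
    have h2 : Complex.exp (-(Complex.I * w.arg)) * w = (‖w‖ : ℂ) := by
      have h3 := Complex.norm_mul_exp_arg_mul_I w
      calc Complex.exp (-(Complex.I * w.arg)) * w
          = Complex.exp (-(Complex.I * w.arg)) * (‖w‖ * Complex.exp (w.arg * Complex.I)) := by rw [h3]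
        _ = ‖w‖ * (Complex.exp (-(Complex.I * w.arg)) * Complex.exp (w.arg * Complex.I)) := by ring
        _ = ‖w‖ := by
          rw [← Complex.exp_add]
          have : -(Complex.I * (w.arg : ℂ)) + (w.arg : ℂ) * Complex.I = 0 := by ring
          rw [this, Complex.exp_zero, mul_one]
    rw [h2, Complex.ofReal_im]
  have hs3 := hCNU Θf w.arg p s hmono hf2 fun θ hθ => by
    obtain ⟨h2, h3, h4⟩ := hs2 θ hθ
    refine ⟨h2, h3, ?_⟩
    have h5 := ATM_im (f (circleMap 0 r θ) - w) (Θh θ) w.arg (hhe θ)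
    have h6 := ATM_im (f (circleMap 0 r θ)) (Θf θ) w.arg (hfe θ)
    rw [h4, mul_zero, mul_sub, Complex.sub_im, hwim, sub_zero, h6] at h5
    rcases mul_eq_zero.1 h5 with h7 | h7
    · exfalso
      have h8 := hre _ (hnorm θ)
      rw [norm_eq_zero.1 h7] at h8
      simp at h8
    · exact h7
  omega

end Pool.Agent.GD
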