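import Pool.Agent.helper65.GD.SpecB

set_option autoImplicit false

namespace Pool.Agent.GD

open Finset Metric Filter Topology

/-- the critical values are a null set -/
theorem EXA_sard (f : ℂ → ℂ) (s : Set ℂ) (hd : ∀ z ∈ s, DifferentiableAt ℂ f z) (h0 : ∀ z ∈ s, deriv f z = 0) :
    MeasureTheory.volume (f '' s) = 0 := by
  apply MeasureTheory.addHaar_image_eq_zero_of_det_fderivWithin_eq_zero (f' := fun _ => (0 : ℂ →L[ℝ] ℂ))
  · intro z hz
    have h1 : HasDerivAt f 0 z := by
      have := (hd z hz).hasDerivAt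
      rwa [h0 z hz] at this
    have h2 : HasFDerivAt f (0 : ℂ →L[ℂ] ℂ) z := by
      have := h1.hasFDerivAt
      simpa using this
    have h3 := h2.restrictScalars ℝ
    exact h3.hasFDerivWithinAt
  · intro z _
    have : (0 : ℂ →L[ℝ] ℂ).det = LinearMap.det (0 : ℂ →ₗ[ℝ] ℂ) := rfl
    rw [this, LinearMap.det_zero, Complex.finrank_real_complex]
    norm_num

/-- a continuous function with positive cosine changes by less than `2π` -/
theorem EXA_cos (D : ℝ → ℝ) (hD : Continuous D) (hc : ∀ θ, 0 < Real.cos (D θ)) (x : ℝ) (m : ℤ)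
    (h : D x = D 0 + 2 * Real.pi * m) : m = 0 := by
  have hpi := Real.pi_pos
  have hiv := intermediate_value_uIcc (f := D) (a := 0) (b := x) hD.continuousOn
  rcases lt_trichotomy m 0 with hm | hm | hm
  · exfalso
    have h1 : (m : ℝ) ≤ -1 := by exact_mod_cast (show m ≤ -1 by omega)
    have h2 : D 0 - Real.pi ∈ Set.uIcc (D 0) (D x) := by
      rw [Set.mem_uIcc]
      right
      rw [h]
      constructor <;> nlinarith
    obtain ⟨θ, -, hθ⟩ := hiv h2
    have h3 := hc θ
    rw [hθ, Real.cos_sub_pi] at h3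
    have h4 := hc 0
    linarith
  · exact hm
  · exfalso
    have h1 : (1 : ℝ) ≤ m := by exact_mod_cast (show 1 ≤ m by omega)
    have h2 : D 0 + Real.pi ∈ Set.uIcc (D 0) (D x) := by
      rw [Set.mem_uIcc]
      left
      rw [h]
      constructor <;> nlinarith
    obtain ⟨θ, -, hθ⟩ := hiv h2
    have h3 := hc θ
    rw [hθ, Real.cos_add_pi] at h3
    have h4 := hc 0
    linarith

theorem EXA (hRAD : RAD_stmt) (hPFA : PFA_stmt) (hARG : ARG_stmt) (hATM : ATM_stmt) : EXA_stmt := by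
  intro f p hf
  obtain ⟨r, a, g, hr1, hFac, -, hfw, hre⟩ := hRAD f p 0 ∅ hf (by simp)
  have hr0 : 0 < r := hFac.1
  have hnorm : ∀ θ : ℝ, ‖circleMap 0 r θ‖ = r := by
    intro θ
    rw [norm_circleMap_zero, abs_of_pos hr0]
  have hfd : ∀ z ∈ ball (0 : ℂ) 1, DifferentiableAt ℂ f z := fun z hz =>
    hf.analytic.differentiableAt (isOpen_ball.mem_nhds hz)
  -- the minimum of the modulus
  obtain ⟨δ, hδ, hδf⟩ : ∃ δ : ℝ, 0 < δ ∧ ∀ z : ℂ, ‖z‖ = r → δ ≤ ‖f z‖ := by
    have hcomp : IsCompact (sphere (0 : ℂ) r) := isCompact_sphere 0 r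
    have hcont : ContinuousOn (fun z => ‖f z‖) (sphere (0 : ℂ) r) := by
      apply ContinuousOn.norm
      intro z hz
      have : z ∈ ball (0 : ℂ) 1 := by
        rw [mem_ball_zero_iff]
        have : ‖z‖ = r := by simpa using hz
        rw [this]
        exact hr1
      exact (hfd z this).continuousAt.continuousWithinAt
    have hne : (sphere (0 : ℂ) r).Nonempty := ⟨circleMap 0 r 0, by simpa using hnorm 0⟩
    obtain ⟨z₀, hz₀, hmin⟩ := hcomp.exists_isMinOn hne hcont
    refine ⟨‖f z₀‖, norm_pos_iff.2 (hfw z₀ (by simpa using hz₀)), fun z hz => hmin (by simpa using hz)⟩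
  -- the value
  obtain ⟨w, hw0, hwδ, hwc⟩ : ∃ w : ℂ, w ≠ 0 ∧ ‖w‖ < δ ∧ ∀ z ∈ ball (0 : ℂ) 1, deriv f z = 0 → f z ≠ w := by
    by_contra hcon
    push Not at hcon
    have hsub : ball (0 : ℂ) δ ⊆ {0} ∪ f '' {z ∈ ball (0 : ℂ) 1 | deriv f z = 0} := by
      intro w hw
      by_cases h0 : w = 0
      · exact Or.inl h0
      · obtain ⟨z, hz, hz1, hz2⟩ := hcon w h0 (by simpa using hw)
        exact Or.inr ⟨z, ⟨hz, hz1⟩, hz2⟩
    have h1 : MeasureTheory.volume (ball (0 : ℂ) δ) ≤ 0 := by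
      calc MeasureTheory.volume (ball (0 : ℂ) δ)
          ≤ MeasureTheory.volume ({0} ∪ f '' {z ∈ ball (0 : ℂ) 1 | deriv f z = 0}) := MeasureTheory.measure_mono hsub
        _ ≤ MeasureTheory.volume ({0} : Set ℂ) + MeasureTheory.volume (f '' {z ∈ ball (0 : ℂ) 1 | deriv f z = 0}) :=
          MeasureTheory.measure_union_le _ _
        _ = 0 := by
          rw [EXA_sard f _ (fun z hz => hfd z hz.1) (fun z hz => hz.2), MeasureTheory.measure_singleton, add_zero]
    exact absurd h1 (not_le.2 (measure_ball_pos MeasureTheory.volume 0 hδ))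
  have hh0 : ∀ z : ℂ, ‖z‖ = r → f z - w ≠ 0 := by
    intro z hz h1
    have h2 := hδf z hz
    rw [sub_eq_zero.1 h1] at h2
    linarith
  obtain ⟨R, M, b, U, hR1, hFh⟩ := hPFA (fun z => f z - w) r hr0 hr1 (hf.analytic.sub_const w) hh0
  obtain ⟨Θf, hfd', hfe, hf2⟩ := hARG f r 1 p a g hFac
  obtain ⟨Θh, hhd, hhe, hh2⟩ := hARG (fun z => f z - w) r R M b U hFh
  have hcf : Continuous Θf := continuous_iff_continuousAt.2 fun θ => (hfd' θ).continuousAt
  have hch : Continuous Θh := continuous_iff_continuousAt.2 fun θ => (hhd θ).continuousAt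
  -- the cosine
  have hcos : ∀ θ, 0 < Real.cos (Θh θ - Θf θ) := by
    intro θ
    set z := circleMap 0 r θ with hz
    have hf0 : f z ≠ 0 := hfw z (hnorm θ)
    have hh00 : f z - w ≠ 0 := hh0 z (hnorm θ)
    have hnf : 0 < ‖f z‖ := norm_pos_iff.2 hf0
    have hnh : 0 < ‖f z - w‖ := norm_pos_iff.2 hh00
    have h1 : (f z - w) / f z = ((‖f z - w‖ / ‖f z‖ : ℝ) : ℂ) * Complex.exp (((Θh θ - Θf θ : ℝ) : ℂ) * Complex.I) := by
      have e1 : f z - w = ‖f z - w‖ * Complex.exp (Complex.I * Θh θ) := hhe θ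
      have e2 : f z = ‖f z‖ * Complex.exp (Complex.I * Θf θ) := hfe θ
      have e3 : (((Θh θ - Θf θ : ℝ) : ℂ) * Complex.I) = Complex.I * Θh θ - Complex.I * Θf θ := by
        push_cast
        ring
      have e4 : (‖f z‖ : ℂ) ≠ 0 := Complex.ofReal_ne_zero.2 hnf.ne'
      calc (f z - w) / f z = (‖f z - w‖ * Complex.exp (Complex.I * Θh θ)) /
            (‖f z‖ * Complex.exp (Complex.I * Θf θ)) := by rw [← e1, ← e2]
        _ = _ := by
          rw [e3, Complex.exp_sub]
          push_cast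
          rw [mul_div_mul_comm]
    have h2 : ((f z - w) / f z).re = ‖f z - w‖ / ‖f z‖ * Real.cos (Θh θ - Θf θ) := by
      rw [h1, Complex.re_ofReal_mul, Complex.exp_ofReal_mul_I_re]
    have h3 : 0 < ((f z - w) / f z).re := by
      rw [sub_div, div_self hf0, Complex.sub_re, Complex.one_re]
      have h4 : |(w / f z).re| ≤ ‖w / f z‖ := Complex.abs_re_le_norm _
      have h5 : ‖w / f z‖ < 1 := by
        rw [norm_div, div_lt_one hnf]
        exact hwδ.trans_le (hδf z (hnorm θ))
      have := (abs_le.1 h4).2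
      linarith
    rw [h2] at h3
    have h4 : 0 < ‖f z - w‖ / ‖f z‖ := div_pos hnh hnf
    exact (mul_pos_iff_of_pos_left h4).1 h3
  have hMp : M = p := by
    have h1 := EXA_cos (fun θ => Θh θ - Θf θ) (hch.sub hcf) hcos (2 * Real.pi) ((M : ℤ) - p) (by
      simp only [hf2, hh2]
      push_cast
      ring)
    omega
  -- the zeros are distinct
  have hinj : Function.Injective b := by
    intro i j hij
    by_contra hne
    have hbi : b i ∈ ball (0 : ℂ) R := by
      rw [mem_ball_zero_iff]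
      exact (hFh.2.2.1 i).trans hFh.2.1
    have hbi1 : b i ∈ ball (0 : ℂ) 1 := ball_subset_ball hR1 hbi
    have hev : (fun z => f z - w) =ᶠ[𝓝 (b i)] fun z => (z - b i) * ((∏ l ∈ univ.erase i, (z - b l)) * U z) := by
      filter_upwards [isOpen_ball.mem_nhds hbi] with z hz
      have h1 : f z - w = (∏ l, (z - b l)) * U z := hFh.2.2.2.2.2 z hz
      rw [h1, ← Finset.mul_prod_erase univ _ (mem_univ i), mul_assoc]
    have hUd : DifferentiableAt ℂ U (b i) := hFh.2.2.2.1.differentiableAt (isOpen_ball.mem_nhds hbi)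
    have hQd : DifferentiableAt ℂ (fun z => (∏ l ∈ univ.erase i, (z - b l)) * U z) (b i) := by
      apply DifferentiableAt.mul _ hUd
      apply DifferentiableAt.fun_finsetProd
      intro l _
      fun_prop
    have hQ0 : (∏ l ∈ univ.erase i, (b i - b l)) = 0 :=
      Finset.prod_eq_zero (Finset.mem_erase.2 ⟨Ne.symm hne, mem_univ j⟩) (by rw [hij, sub_self])
    have hd : deriv (fun z => (z - b i) * ((∏ l ∈ univ.erase i, (z - b l)) * U z)) (b i) =
        1 * ((∏ l ∈ univ.erase i, (b i - b l)) * U (b i)) +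
          (b i - b i) * deriv (fun z => (∏ l ∈ univ.erase i, (z - b l)) * U z) (b i) :=
      (((hasDerivAt_id (b i)).sub_const (b i)).mul hQd.hasDerivAt).deriv
    rw [hQ0, sub_self, zero_mul, zero_mul, mul_zero, add_zero] at hd
    have hfd0 : deriv f (b i) = 0 := by
      have h1 : deriv (fun z => f z - w) (b i) = deriv f (b i) := deriv_sub_const w
      rw [← h1, hev.deriv_eq, hd]
    have hfb : f (b i) = w := by
      have h1 : f (b i) - w = (b i - b i) * ((∏ l ∈ univ.erase i, (b i - b l)) * U (b i)) := hev.self_of_nhds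
      rw [sub_self, zero_mul] at h1
      exact sub_eq_zero.1 h1
    exact hwc (b i) hbi1 hfd0 hfb
  refine ⟨w, le_antisymm (hATM f p hf w) ?_⟩
  have hsub : (Set.range b) ⊆ {z ∈ ball (0 : ℂ) 1 | f z = w} := by
    rintro _ ⟨i, rfl⟩
    have hbi : b i ∈ ball (0 : ℂ) R := by
      rw [mem_ball_zero_iff]
      exact (hFh.2.2.1 i).trans hFh.2.1
    refine ⟨ball_subset_ball hR1 hbi, ?_⟩
    have h1 : f (b i) - w = (∏ l, (b i - b l)) * U (b i) := hFh.2.2.2.2.2 (b i) hbi
    rw [Finset.prod_eq_zero (mem_univ i) (sub_self (b i)), zero_mul] at h1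
    exact sub_eq_zero.1 h1
  calc (p : ℕ∞) = (Set.range b).encard := by
        rw [← Set.image_univ, hinj.encard_image, Set.encard_univ]
        simp [hMp]
    _ ≤ _ := Set.encard_le_encard hsub

end Pool.Agent.GD
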